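import Pool.Agent.Helper145.Hyp9

set_option autoImplicit false
open MeasureTheory

namespace Pool.Agent.Results.MP_31cf03_an.OrderOfA

/-- The hyperbolic cross: integer vectors `k` with `∏ max(|k_j|, 1) ≤ N`. -/
def Gamma (d : ℕ) (N : ℝ) : Set (Fin d → ℤ) := {k | ∏ j, max |(k j : ℝ)| 1 ≤ N}

/-- The trigonometric polynomial `∑ c_k e^{i (k, x)}` with (finitely many) coefficients `c_k`. -/
noncomputable def trigPoly {d : ℕ} (c : (Fin d → ℤ) →₀ ℂ) (x : Fin d → ℝ) : ℂ :=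
  c.sum fun k a => a * Complex.exp (Complex.I * ∑ j, (k j : ℂ) * (x j : ℂ))

/-- The normalised `L_1` norm over the cube `[0, 2π]^d`. -/
noncomputable def normOne {d : ℕ} (f : (Fin d → ℝ) → ℂ) : ℝ :=
  ((2 * Real.pi) ^ d)⁻¹ * ∫ x in Set.Icc (0 : Fin d → ℝ) (fun _ => 2 * Real.pi), ‖f x‖

/-- The quotients `(∑ |c_k|) / ‖t‖_1`, for nonzero `t` with frequencies in the hyperbolic cross. -/
def ratios (d : ℕ) (N : ℝ) : Set ℝ :=
  {q | ∃ c : (Fin d → ℤ) →₀ ℂ, c ≠ 0 ∧ (∀ k ∈ c.support, k ∈ Gamma d N) ∧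
    q = (∑ k ∈ c.support, ‖c k‖) / normOne (trigPoly c)}

/-- The quantity `A_d(N)`. -/
noncomputable def A (d : ℕ) (N : ℝ) : ℝ := sSup (ratios d N)

lemma trigPoly_eq {d : ℕ} (c : (Fin d → ℤ) →₀ ℂ) (x : Fin d → ℝ) :
    trigPoly c x = ∑ k ∈ c.support, c k * Complex.exp (Complex.I * ∑ j, (k j : ℂ) * (x j : ℂ)) := rfl

lemma normOne_eq {d : ℕ} (c : (Fin d → ℤ) →₀ ℂ) :
    normOne (trigPoly c) = ((2 * Real.pi) ^ d)⁻¹ *
      ∫ z : Helper145.Hyp.Tor d, ‖Helper145.Hyp.tpol c.support c z‖ := by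
  unfold normOne
  simp_rw [trigPoly_eq]
  rw [Helper145.Hyp.box_eq_torus]

lemma two_pow_size_le (k : ℤ) : (2:ℝ) ^ (Nat.size k.natAbs) ≤ 2 * max |(k : ℝ)| 1 := by
  by_cases h : k.natAbs = 0
  · rw [h, Nat.size_zero, pow_zero]
    have : (1:ℝ) ≤ max |(k : ℝ)| 1 := le_max_right _ _
    linarith
  · have h1 : 0 < Nat.size k.natAbs := Nat.size_pos.mpr (Nat.pos_of_ne_zero h)
    have h2 : 2 ^ (Nat.size k.natAbs - 1) ≤ k.natAbs := by rw [← Nat.lt_size]; omega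
    have h3 : (2:ℝ) ^ (Nat.size k.natAbs) = 2 * 2 ^ (Nat.size k.natAbs - 1) := by
      rw [← pow_succ']; congr 1; omega
    have hab : |(k : ℝ)| = (k.natAbs : ℝ) := by
      rw [← Int.cast_abs, Int.abs_eq_natAbs]; simp
    have h4 : (2:ℝ) ^ (Nat.size k.natAbs - 1) ≤ |(k : ℝ)| := by rw [hab]; exact_mod_cast h2
    have h5 := le_max_left |(k : ℝ)| 1
    rw [h3]; linarith

lemma blk_sum_le {d : ℕ} {N : ℝ} {k : Fin d → ℤ} (hk : k ∈ Gamma d N) :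
    ∑ j, Helper145.Hyp.blk k j ≤ Nat.log 2 ⌊2 ^ d * N⌋₊ := by
  have h1 : (2:ℝ) ^ (∑ j, Helper145.Hyp.blk k j) ≤ 2 ^ d * N := by
    rw [← Finset.prod_pow_eq_pow_sum]
    calc ∏ j, (2:ℝ) ^ (Helper145.Hyp.blk k j) ≤ ∏ j, (2 * max |(k j : ℝ)| 1) :=
          Finset.prod_le_prod (fun _ _ => by positivity) (fun j _ => two_pow_size_le (k j))
      _ = 2 ^ d * ∏ j, max |(k j : ℝ)| 1 := by rw [Finset.prod_mul_distrib]; simp
      _ ≤ 2 ^ d * N := by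
          have : ∏ j, max |(k j : ℝ)| 1 ≤ N := hk
          gcongr
  have h2 : 2 ^ (∑ j, Helper145.Hyp.blk k j) ≤ ⌊2 ^ d * N⌋₊ := by
    apply Nat.le_floor
    push_cast
    exact h1
  have h3 : ⌊2 ^ d * N⌋₊ ≠ 0 := by
    have : 0 < 2 ^ (∑ j, Helper145.Hyp.blk k j) := by positivity
    omega
  exact (Nat.le_log_iff_pow_le (by norm_num) h3).mpr h2

/-- the upper bound in product form -/
theorem upper (d : ℕ) : ∃ C : ℝ, 0 < C ∧ ∀ N : ℝ, 1 ≤ N → ∀ c : (Fin d → ℤ) →₀ ℂ,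
    (∀ k ∈ c.support, k ∈ Gamma d N) → ∑ k ∈ c.support, ‖c k‖ ≤ C * N * normOne (trigPoly c) := by
  obtain ⟨C, hC, h⟩ := Helper145.Hyp.torus_main d
  refine ⟨C * 2 ^ d, by positivity, fun N hN c hc => ?_⟩
  have h1 := h (Nat.log 2 ⌊2 ^ d * N⌋₊) c.support (fun k hk => blk_sum_le (hc k hk)) c
  have h2 : (2:ℝ) ^ (Nat.log 2 ⌊2 ^ d * N⌋₊) ≤ 2 ^ d * N := by
    have h3 : (1:ℝ) ≤ 2 ^ d * N := by
      have : (1:ℝ) ≤ 2 ^ d := one_le_pow₀ (by norm_num)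
      nlinarith
    have h4 : ⌊2 ^ d * N⌋₊ ≠ 0 := by
      have : 1 ≤ ⌊2 ^ d * N⌋₊ := Nat.le_floor (by exact_mod_cast h3)
      omega
    have h5 : 2 ^ (Nat.log 2 ⌊2 ^ d * N⌋₊) ≤ ⌊2 ^ d * N⌋₊ := Nat.pow_log_le_self 2 h4
    calc (2:ℝ) ^ (Nat.log 2 ⌊2 ^ d * N⌋₊) ≤ (⌊2 ^ d * N⌋₊ : ℝ) := by exact_mod_cast h5
      _ ≤ 2 ^ d * N := Nat.floor_le (by linarith)
  have hpi : (0:ℝ) < (2 * Real.pi) ^ d := by have := Real.pi_pos; positivity
  have hI : 0 ≤ ∫ z : Helper145.Hyp.Tor d, ‖Helper145.Hyp.tpol c.support c z‖ :=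
    integral_nonneg (fun _ => norm_nonneg _)
  rw [normOne_eq]
  rw [← mul_le_mul_iff_right₀ hpi]
  refine h1.trans ?_
  calc C * 2 ^ (Nat.log 2 ⌊2 ^ d * N⌋₊) * ∫ z : Helper145.Hyp.Tor d, ‖Helper145.Hyp.tpol c.support c z‖
      ≤ C * (2 ^ d * N) * ∫ z : Helper145.Hyp.Tor d, ‖Helper145.Hyp.tpol c.support c z‖ := by gcongr
    _ = (2 * Real.pi) ^ d * (C * 2 ^ d * N * (((2 * Real.pi) ^ d)⁻¹ *
        ∫ z : Helper145.Hyp.Tor d, ‖Helper145.Hyp.tpol c.support c z‖)) := by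
        field_simp

/-- sanity check: the denominator of the quotients is positive -/
theorem normOne_pos {d : ℕ} (c : (Fin d → ℤ) →₀ ℂ) (hc : c ≠ 0) : 0 < normOne (trigPoly c) := by
  obtain ⟨C, hC, h⟩ := upper d
  -- a cross containing all the frequencies
  set N : ℝ := 1 + ∑ k ∈ c.support, ∏ j, max |(k j : ℝ)| 1 with hN
  have hpos : ∀ k : Fin d → ℤ, 0 ≤ ∏ j, max |(k j : ℝ)| 1 :=
    fun k => Finset.prod_nonneg (fun j _ => le_max_of_le_right zero_le_one)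
  have h1 : 1 ≤ N := by
    have : 0 ≤ ∑ k ∈ c.support, ∏ j, max |(k j : ℝ)| 1 := Finset.sum_nonneg (fun k _ => hpos k)
    linarith
  have h2 : ∀ k ∈ c.support, k ∈ Gamma d N := by
    intro k hk
    have := Finset.single_le_sum (f := fun k : Fin d → ℤ => ∏ j, max |(k j : ℝ)| 1)
      (fun k _ => hpos k) hk
    show ∏ j, max |(k j : ℝ)| 1 ≤ N
    linarith
  have h3 := h N h1 c h2
  obtain ⟨k, hk⟩ := Finsupp.support_nonempty_iff.mpr hc
  have h4 : 0 < ∑ k ∈ c.support, ‖c k‖ :=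
    Finset.sum_pos (fun k hk => norm_pos_iff.mpr (Finsupp.mem_support_iff.mp hk)) ⟨k, hk⟩
  have h5 : 0 < C * N * normOne (trigPoly c) := h4.trans_le h3
  have h6 : 0 < C * N := by positivity
  exact (pos_iff_pos_of_mul_pos h5).mp h6

/-- the Fejer coefficients -/
noncomputable def fejer {d : ℕ} (i : Fin d) (M : ℕ) : (Fin d → ℤ) →₀ ℂ :=
  ∑ a ∈ Finset.range (M + 1), ∑ b ∈ Finset.range (M + 1),
    Finsupp.single (Helper145.Hyp.kk i ((a : ℤ) - b)) (1 : ℂ)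

lemma fejer_sum {d : ℕ} (i : Fin d) (M : ℕ) (g : (Fin d → ℤ) → ℂ) :
    ((fejer i M).sum fun k a => a * g k) = ∑ a ∈ Finset.range (M + 1), ∑ b ∈ Finset.range (M + 1),
      g (Helper145.Hyp.kk i ((a : ℤ) - b)) := by
  unfold fejer
  rw [← Finsupp.sum_finsetSum_index (fun _ => by simp) (fun _ _ _ => by ring)]
  apply Finset.sum_congr rfl; intro a _
  rw [← Finsupp.sum_finsetSum_index (fun _ => by simp) (fun _ _ _ => by ring)]
  apply Finset.sum_congr rfl; intro b _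
  rw [Finsupp.sum_single_index (by simp)]; simp

lemma fejer_support {d : ℕ} (i : Fin d) {M : ℕ} {N : ℝ} (hM : (M : ℝ) ≤ N) (hN : 1 ≤ N) :
    ∀ k ∈ (fejer i M).support, k ∈ Gamma d N := by
  classical
  intro k hk
  unfold fejer at hk
  have h1 := Finsupp.support_finsetSum hk
  rw [Finset.mem_biUnion] at h1
  obtain ⟨a, ha, h1⟩ := h1
  have h2 := Finsupp.support_finsetSum h1
  rw [Finset.mem_biUnion] at h2
  obtain ⟨b, hb, h2⟩ := h2
  have h3 := Finsupp.support_single_subset h2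
  rw [Finset.mem_singleton] at h3
  subst h3
  rw [Finset.mem_range] at ha hb
  show ∏ j, max |(((Helper145.Hyp.kk i ((a : ℤ) - b)) j : ℤ) : ℝ)| 1 ≤ N
  rw [Finset.prod_eq_single i]
  · unfold Helper145.Hyp.kk
    rw [if_pos rfl]
    apply max_le _ hN
    push_cast
    have ha' : (a : ℝ) ≤ M := by exact_mod_cast Nat.lt_succ_iff.mp ha
    have hb' : (b : ℝ) ≤ M := by exact_mod_cast Nat.lt_succ_iff.mp hb
    have ha0 : (0:ℝ) ≤ a := Nat.cast_nonneg _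
    have hb0 : (0:ℝ) ≤ b := Nat.cast_nonneg _
    rw [abs_le]; constructor <;> linarith
  · intro j _ hj
    unfold Helper145.Hyp.kk
    rw [if_neg hj]; simp
  · intro h; exact absurd (Finset.mem_univ i) h

lemma fejer_coef {d : ℕ} (i : Fin d) (M : ℕ) :
    ((M:ℝ) + 1) ^ 2 ≤ ∑ k ∈ (fejer i M).support, ‖(fejer i M) k‖ := by
  have h1 := fejer_sum i M (fun _ => 1)
  have h2 : ∑ k ∈ (fejer i M).support, (fejer i M) k = (((M:ℝ) + 1) ^ 2 : ℝ) := by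
    have h3 : ((fejer i M).sum fun k a => a * 1) = ∑ k ∈ (fejer i M).support, (fejer i M) k := by
      unfold Finsupp.sum; simp
    rw [← h3, h1]
    push_cast
    simp; ring
  have h4 := norm_sum_le (fejer i M).support (fun k => (fejer i M) k)
  rw [h2, Complex.norm_real, Real.norm_eq_abs, abs_of_nonneg (by positivity)] at h4
  exact h4

lemma fejer_norm {d : ℕ} (i : Fin d) (M : ℕ) : normOne (trigPoly (fejer i M)) = M + 1 := by
  rw [normOne_eq]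
  have h1 : ∀ z : Helper145.Hyp.Tor d, Helper145.Hyp.tpol (fejer i M).support (fejer i M) z
      = ∑ a ∈ Finset.range (M + 1), ∑ b ∈ Finset.range (M + 1),
        Helper145.Hyp.tch (Helper145.Hyp.kk i ((a : ℤ) - b)) z := by
    intro z
    exact fejer_sum i M (fun k => Helper145.Hyp.tch k z)
  simp_rw [h1]
  rw [Helper145.Hyp.fejer_L1]
  have hpi : (0:ℝ) < (2 * Real.pi) ^ d := by have := Real.pi_pos; positivity
  field_simp

/-- For every dimension `d ≥ 2` the quantity `A_d(N)` has exact order `N`. -/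
theorem result (d : ℕ) (hd : 2 ≤ d) :
    ∃ c₁ C₁ : ℝ, 0 < c₁ ∧ 0 < C₁ ∧ ∀ N : ℝ, 2 ≤ N →
      BddAbove (ratios d N) ∧ c₁ * N ≤ A d N ∧ A d N ≤ C₁ * N := by
  obtain ⟨C, hC, h⟩ := upper d
  refine ⟨1, C, one_pos, hC, fun N hN => ?_⟩
  have hub : ∀ q ∈ ratios d N, q ≤ C * N := by
    rintro q ⟨c, hc0, hc, rfl⟩
    rw [div_le_iff₀ (normOne_pos c hc0)]
    exact h N (by linarith) c hc
  have hbdd : BddAbove (ratios d N) := ⟨C * N, hub⟩
  have i : Fin d := ⟨0, by omega⟩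
  have hmem : (∑ k ∈ (fejer i ⌊N⌋₊).support, ‖(fejer i ⌊N⌋₊) k‖) / normOne (trigPoly (fejer i ⌊N⌋₊))
      ∈ ratios d N := by
    refine ⟨fejer i ⌊N⌋₊, ?_, fejer_support i (Nat.floor_le (by linarith)) (by linarith), rfl⟩
    intro h0
    have h1 := fejer_coef i ⌊N⌋₊
    rw [h0] at h1
    simp at h1
    have : (0:ℝ) < ((⌊N⌋₊:ℝ) + 1) ^ 2 := by positivity
    linarith
  have hlow : N ≤ (∑ k ∈ (fejer i ⌊N⌋₊).support, ‖(fejer i ⌊N⌋₊) k‖) / normOne (trigPoly (fejer i ⌊N⌋₊)) := by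
    rw [fejer_norm, le_div_iff₀ (by positivity)]
    have h1 := fejer_coef i ⌊N⌋₊
    have h2 := Nat.lt_floor_add_one N
    have h3 : (0:ℝ) < (⌊N⌋₊:ℝ) + 1 := by positivity
    nlinarith
  refine ⟨hbdd, ?_, csSup_le ⟨_, hmem⟩ hub⟩
  rw [one_mul]
  exact hlow.trans (le_csSup hbdd hmem)

end Pool.Agent.Results.MP_31cf03_an.OrderOfA
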